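import Pool.Agent.Results.MP_31cf03_an.OrderOfA

set_option autoImplicit false
open MeasureTheory

namespace Pool.Agent.Y247.HX

/-- The trigonometric polynomial `∑ c_k e^{i (k, x)}` with (finitely many) coefficients `c_k`. -/
noncomputable def trigPoly {d : ℕ} (c : (Fin d → ℤ) →₀ ℂ) (x : Fin d → ℝ) : ℂ :=
  c.sum fun k a => a * Complex.exp (Complex.I * ∑ j, (k j : ℂ) * (x j : ℂ))

/-- The normalised `L_p` (quasi-)norm over the cube `[0, 2π]^d`, for a real `p > 0`. -/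
noncomputable def normLp {d : ℕ} (p : ℝ) (f : (Fin d → ℝ) → ℂ) : ℝ :=
  (((2 * Real.pi) ^ d)⁻¹ * ∫ x in Set.Icc (0 : Fin d → ℝ) (fun _ => 2 * Real.pi), ‖f x‖ ^ p) ^ (1 / p)

/-- The `ℓ_q` norm of the coefficients, for a real `q ≥ 1`. -/
noncomputable def coefNorm {d : ℕ} (q : ℝ) (c : (Fin d → ℤ) →₀ ℂ) : ℝ :=
  (∑ k ∈ c.support, ‖c k‖ ^ q) ^ (1 / q)

/-- the exponential with frequency `k` -/
noncomputable def ex {d : ℕ} (k : Fin d → ℤ) (x : Fin d → ℝ) : ℂ :=
  Complex.exp (Complex.I * ∑ j, (k j : ℂ) * (x j : ℂ))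

lemma trigPoly_eq {d : ℕ} (c : (Fin d → ℤ) →₀ ℂ) (x : Fin d → ℝ) :
    trigPoly c x = ∑ k ∈ c.support, c k * ex k x := rfl

lemma trigPoly_same {d : ℕ} (c : (Fin d → ℤ) →₀ ℂ) :
    trigPoly c = Pool.Agent.Results.MP_31cf03_an.OrderOfA.trigPoly c := rfl

lemma ex_norm {d : ℕ} (k : Fin d → ℤ) (x : Fin d → ℝ) : ‖ex k x‖ = 1 := by
  unfold ex
  have : Complex.I * ∑ j, (k j : ℂ) * (x j : ℂ) = ((∑ j, (k j : ℝ) * (x j : ℝ) : ℝ) : ℂ) * Complex.I := by
    push_cast; ring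
  rw [this, Complex.norm_exp_ofReal_mul_I]

lemma ex_add {d : ℕ} (k l : Fin d → ℤ) (x : Fin d → ℝ) : ex (k + l) x = ex k x * ex l x := by
  unfold ex
  rw [← Complex.exp_add]
  congr 1
  rw [← mul_add, ← Finset.sum_add_distrib]
  congr 1
  apply Finset.sum_congr rfl
  intro j _
  simp only [Pi.add_apply]; push_cast; ring

lemma ex_conj {d : ℕ} (k : Fin d → ℤ) (x : Fin d → ℝ) : (starRingEnd ℂ) (ex k x) = ex (-k) x := by
  unfold ex
  rw [← Complex.exp_conj]
  congr 1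
  rw [map_mul, map_sum, Complex.conj_I, Finset.mul_sum, Finset.mul_sum]
  apply Finset.sum_congr rfl
  intro j _
  simp only [Pi.neg_apply, map_mul, Complex.conj_ofReal]
  rw [show (starRingEnd ℂ) ((k j : ℤ) : ℂ) = ((k j : ℤ) : ℂ) from by simp]
  push_cast; ring

lemma ex_zero {d : ℕ} (k : Fin d → ℤ) : ex k 0 = 1 := by
  unfold ex; simp

lemma ex_cont {d : ℕ} (k : Fin d → ℤ) : Continuous (ex k) := by
  unfold ex
  fun_prop

lemma trigPoly_cont {d : ℕ} (c : (Fin d → ℤ) →₀ ℂ) : Continuous (trigPoly c) := by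
  have : trigPoly c = fun x => ∑ k ∈ c.support, c k * ex k x := by funext x; exact trigPoly_eq c x
  rw [this]
  exact continuous_finsetSum _ (fun k _ => continuous_const.mul (ex_cont k))

/-- the cube -/
abbrev Q (d : ℕ) : Set (Fin d → ℝ) := Set.Icc (0 : Fin d → ℝ) (fun _ => 2 * Real.pi)

lemma Q_compact (d : ℕ) : IsCompact (Q d) := isCompact_Icc

lemma Q_int {d : ℕ} {E : Type*} [NormedAddCommGroup E] [NormedSpace ℝ E] {f : (Fin d → ℝ) → E}
    (hf : Continuous f) : IntegrableOn f (Q d) := hf.continuousOn.integrableOn_compact (Q_compact d)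

lemma Q_vol (d : ℕ) : (volume : Measure (Fin d → ℝ)).real (Q d) = (2 * Real.pi) ^ d := by
  rw [Measure.real, Real.volume_Icc_pi_toReal]
  · simp
  · intro j; simp only [Pi.zero_apply]; exact Real.two_pi_pos.le

lemma int1 (n : ℤ) : ∫ x in Set.Icc (0:ℝ) (2 * Real.pi), Complex.exp (Complex.I * ((n : ℂ) * (x : ℂ)))
    = if n = 0 then ((2 * Real.pi : ℝ) : ℂ) else 0 := by
  rw [integral_Icc_eq_integral_Ioc, ← intervalIntegral.integral_of_le Real.two_pi_pos.le]
  split_ifs with h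
  · subst h; simp
  · have h1 : ∀ x : ℝ, Complex.I * ((n : ℂ) * (x : ℂ)) = (Complex.I * (n : ℂ)) * (x : ℂ) := fun x => by ring
    simp_rw [h1]
    have hn : (n : ℂ) ≠ 0 := by exact_mod_cast h
    rw [integral_exp_mul_complex (mul_ne_zero Complex.I_ne_zero hn)]
    have h2 : Complex.exp (Complex.I * (n:ℂ) * ((2 * Real.pi : ℝ) : ℂ)) = 1 := by
      rw [Complex.exp_eq_one_iff]
      exact ⟨n, by push_cast; ring⟩
    rw [h2]; simp

lemma int_ex {d : ℕ} (n : Fin d → ℤ) : ∫ x in Q d, ex n x = if n = 0 then (((2 * Real.pi) ^ d : ℝ) : ℂ) else 0 := by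
  have h1 : ∀ x : Fin d → ℝ, ex n x = ∏ j, Complex.exp (Complex.I * ((n j : ℂ) * (x j : ℂ))) := by
    intro x
    unfold ex
    rw [Finset.mul_sum, Complex.exp_sum]
  simp_rw [h1]
  have h2 : Q d = Set.pi Set.univ (fun _ : Fin d => Set.Icc (0:ℝ) (2 * Real.pi)) := by
    rw [Set.pi_univ_Icc]; rfl
  rw [h2, volume_pi, Measure.restrict_pi_pi,
    integral_fintype_prod_eq_prod (μ := fun _ : Fin d => (volume : Measure ℝ).restrict (Set.Icc 0 (2 * Real.pi)))
      (f := fun (j : Fin d) (x : ℝ) => Complex.exp (Complex.I * ((n j : ℂ) * (x : ℂ))))]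
  simp_rw [int1]
  split_ifs with h
  · subst h; simp
  · have : ∃ j, n j ≠ 0 := by
      by_contra h3
      push Not at h3
      exact h (funext h3)
    obtain ⟨j, hj⟩ := this
    exact Finset.prod_eq_zero (Finset.mem_univ j) (by simp [hj])

/-- every coefficient is at most the `L_1` norm -/
lemma coef_le {d : ℕ} (c : (Fin d → ℤ) →₀ ℂ) (k : Fin d → ℤ) :
    ‖c k‖ ≤ ((2 * Real.pi) ^ d)⁻¹ * ∫ x in Q d, ‖trigPoly c x‖ := by
  have hpi : (0:ℝ) < (2 * Real.pi) ^ d := by have := Real.pi_pos; positivity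
  have h1 : ∫ x in Q d, trigPoly c x * ex (-k) x = c k * (((2 * Real.pi) ^ d : ℝ) : ℂ) := by
    have h2 : ∀ x, trigPoly c x * ex (-k) x = ∑ l ∈ c.support, c l * ex (l - k) x := by
      intro x
      rw [trigPoly_eq, Finset.sum_mul]
      apply Finset.sum_congr rfl
      intro l _
      rw [sub_eq_add_neg, ex_add]; ring
    simp_rw [h2]
    rw [integral_finsetSum]
    · simp_rw [integral_const_mul, int_ex, sub_eq_zero]
      by_cases hk : k ∈ c.support
      · rw [Finset.sum_eq_single k]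
        · rw [if_pos rfl]
        · intro l _ hl; rw [if_neg hl, mul_zero]
        · intro h; exact absurd hk h
      · rw [Finset.sum_eq_zero]
        · rw [Finsupp.notMem_support_iff.mp hk, zero_mul]
        · intro l hl
          have : l ≠ k := fun h => hk (h ▸ hl)
          rw [if_neg this, mul_zero]
    · intro l _
      exact Q_int (continuous_const.mul (ex_cont _))
  have h3 : ‖c k‖ * (2 * Real.pi) ^ d ≤ ∫ x in Q d, ‖trigPoly c x‖ := by
    have h4 : ‖∫ x in Q d, trigPoly c x * ex (-k) x‖ ≤ ∫ x in Q d, ‖trigPoly c x * ex (-k) x‖ :=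
      norm_integral_le_integral_norm _
    rw [h1, norm_mul, Complex.norm_real, Real.norm_eq_abs, abs_of_pos hpi] at h4
    simp_rw [norm_mul, ex_norm, mul_one] at h4
    exact h4
  rw [inv_mul_eq_div, le_div_iff₀ hpi]
  exact h3

/-- the `L_1` norm in terms of the `p`-th power average -/
lemma avg1_le {d : ℕ} {p : ℝ} (hp0 : 0 < p) (hp1 : p ≤ 1) (c : (Fin d → ℤ) →₀ ℂ) :
    ((2 * Real.pi) ^ d)⁻¹ * ∫ x in Q d, ‖trigPoly c x‖ ≤
      (∑ k ∈ c.support, ‖c k‖) ^ (1 - p) * (((2 * Real.pi) ^ d)⁻¹ * ∫ x in Q d, ‖trigPoly c x‖ ^ p) := by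
  have hpi : (0:ℝ) < (2 * Real.pi) ^ d := by have := Real.pi_pos; positivity
  set M := ∑ k ∈ c.support, ‖c k‖ with hM
  have hM0 : 0 ≤ M := Finset.sum_nonneg (fun _ _ => norm_nonneg _)
  have h1 : ∀ x, ‖trigPoly c x‖ ≤ M := by
    intro x
    rw [trigPoly_eq]
    refine (norm_sum_le _ _).trans (le_of_eq ?_)
    rw [hM]
    apply Finset.sum_congr rfl
    intro k _
    rw [norm_mul, ex_norm, mul_one]
  have h2 : ∀ x, ‖trigPoly c x‖ ≤ M ^ (1 - p) * ‖trigPoly c x‖ ^ p := by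
    intro x
    have h3 : ‖trigPoly c x‖ = ‖trigPoly c x‖ ^ (1 - p) * ‖trigPoly c x‖ ^ p := by
      rw [← Real.rpow_add_of_nonneg (norm_nonneg _) (by linarith) hp0.le]
      simp
    calc ‖trigPoly c x‖ = ‖trigPoly c x‖ ^ (1 - p) * ‖trigPoly c x‖ ^ p := h3
      _ ≤ _ := by
        apply mul_le_mul_of_nonneg_right _ (Real.rpow_nonneg (norm_nonneg _) _)
        exact Real.rpow_le_rpow (norm_nonneg _) (h1 x) (by linarith)
  have hc := trigPoly_cont c
  have h4 : ∫ x in Q d, ‖trigPoly c x‖ ≤ ∫ x in Q d, M ^ (1 - p) * ‖trigPoly c x‖ ^ p := by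
    apply setIntegral_mono (Q_int hc.norm)
    · exact Q_int (continuous_const.mul (hc.norm.rpow_const (fun _ => Or.inr hp0.le)))
    · exact h2
  rw [integral_const_mul] at h4
  calc ((2 * Real.pi) ^ d)⁻¹ * ∫ x in Q d, ‖trigPoly c x‖
      ≤ ((2 * Real.pi) ^ d)⁻¹ * (M ^ (1 - p) * ∫ x in Q d, ‖trigPoly c x‖ ^ p) := by gcongr
    _ = _ := by ring

end Pool.Agent.Y247.HX
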