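import Pool.Agent.Y247.HX.Lower

set_option autoImplicit false
open MeasureTheory

namespace Pool.Agent.Y247.HX

/-- number of frequencies -/
lemma supp_card {d : ℕ} {m : Fin d → ℕ} {r : ℕ} (hr : 1 ≤ r) (c : (Fin d → ℤ) →₀ ℂ)
    (hc : ∀ k ∈ c.support, ∀ j, (k j).natAbs ≤ r * m j) :
    (c.support.card : ℝ) ≤ (2 * r) ^ d * (Bx m).card := by
  have h1 : c.support ⊆ Fintype.piFinset (fun j => Finset.Icc (-((r * m j : ℕ) : ℤ)) ((r * m j : ℕ) : ℤ)) := by
    intro k hk
    rw [Fintype.mem_piFinset]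
    intro j
    have := hc k hk j
    rw [Finset.mem_Icc]
    omega
  have h2 := Finset.card_le_card h1
  rw [Fintype.card_piFinset] at h2
  have h3 : ∏ j : Fin d, (Finset.Icc (-((r * m j : ℕ) : ℤ)) ((r * m j : ℕ) : ℤ)).card
      ≤ ∏ j : Fin d, (2 * r) * (m j + 1) := by
    apply Finset.prod_le_prod (fun _ _ => Nat.zero_le _)
    intro j _
    rw [Int.card_Icc]
    have : (((r * m j : ℕ) : ℤ) + 1 - -((r * m j : ℕ) : ℤ)).toNat = 2 * (r * m j) + 1 := by omega
    rw [this]
    nlinarith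
  have h4 : c.support.card ≤ (2 * r) ^ d * (Bx m).card := by
    refine (h2.trans h3).trans (le_of_eq ?_)
    rw [Finset.prod_mul_distrib, Bx_card]; simp
  exact_mod_cast h4

/-- size of the box -/
lemma box_ge {d : ℕ} {r : ℕ} (hr : 1 ≤ r) (k : Fin d → ℤ) :
    size k ≤ (r:ℝ) ^ d * (Bx (fun j => (k j).natAbs / r)).card := by
  have h1 : size k ≤ ∏ j : Fin d, ((r:ℝ) * (((k j).natAbs / r : ℕ) + 1)) := by
    unfold size
    apply Finset.prod_le_prod (fun _ _ => le_max_of_le_right zero_le_one)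
    intro j _
    have hr' : (1:ℝ) ≤ r := by exact_mod_cast hr
    have h2 : (k j).natAbs < r * ((k j).natAbs / r + 1) := Nat.lt_mul_div_succ _ hr
    have h3 : |(k j : ℝ)| = ((k j).natAbs : ℝ) := by
      rw [← Int.cast_abs, Int.abs_eq_natAbs]; simp
    apply max_le
    · rw [h3]
      exact_mod_cast h2.le
    · have : (0:ℝ) ≤ (((k j).natAbs / r : ℕ) : ℝ) := Nat.cast_nonneg _
      nlinarith
  refine h1.trans (le_of_eq ?_)
  rw [Finset.prod_mul_distrib, Bx_card]
  push_cast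
  simp

/-- the lower bound -/
theorem lower_all {d : ℕ} {p : ℝ} (hp0 : 0 < p) (hp1 : p ≤ 1) (k : Fin d → ℤ) :
    ∃ c : (Fin d → ℤ) →₀ ℂ, c ≠ 0 ∧ (∀ l ∈ c.support, ∀ j, |l j| ≤ |k j|) ∧
      (∃ l, (2 * (⌈1 / p⌉₊ : ℝ)) ^ (-(2 * d / p)) * size k ^ (1 / p - 1) * normLp p (trigPoly c) ≤ ‖c l‖) ∧
      ∀ q : ℝ, 1 ≤ q →
        (2 * (⌈1 / p⌉₊ : ℝ)) ^ (-(2 * d / p)) * size k ^ (1 / p - 1 + 1 / q) * normLp p (trigPoly c)
          ≤ coefNorm q c := by
  set r := ⌈1 / p⌉₊ with hr
  have hr1 : 1 ≤ r := Nat.one_le_iff_ne_zero.mpr (by rw [hr]; positivity)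
  have hr1' : (1:ℝ) ≤ r := by exact_mod_cast hr1
  have hrp : 1 ≤ r * p := by
    have : 1 / p ≤ r := Nat.le_ceil _
    rw [div_le_iff₀ hp0] at this
    exact this
  have h1p : 1 ≤ 1 / p := by rw [le_div_iff₀ hp0]; linarith
  obtain ⟨c, hc0, hc1, hc2, hc3⟩ := good_pol (fun j => (k j).natAbs / r) r p hp0 hrp
  set B : ℝ := ((Bx (fun j => (k j).natAbs / r)).card : ℝ) with hBdef
  have hB : (1:ℝ) ≤ B := by
    rw [hBdef, Bx_card]
    exact_mod_cast Nat.one_le_iff_ne_zero.mpr (Finset.prod_ne_zero_iff.mpr (fun j _ => Nat.succ_ne_zero _))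
  have hB0 : 0 < B := by linarith
  have hcard := supp_card hr1 c hc1
  have hsz := box_ge hr1 k
  rw [← hBdef] at hsz hcard
  set S := size k with hS
  have hS1 : 1 ≤ S := size_ge_one k
  set n := (c.support.card : ℝ) with hn
  have hn1 : 1 ≤ n := by
    rw [hn]
    have := Finsupp.support_nonempty_iff.mpr hc0
    exact_mod_cast this.card_pos
  set L := normLp p (trigPoly c) with hL
  set A : ℝ := 2 * (r:ℝ) with hA
  have hA1 : 1 ≤ A := by rw [hA]; linarith
  have hA0 : 0 < A := by linarith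
  set M := ∑ l ∈ c.support, ‖c l‖ with hM
  have hM0 : 0 ≤ M := Finset.sum_nonneg (fun _ _ => norm_nonneg _)
  have hdp : (0:ℝ) ≤ d / p := by positivity
  -- key inequality for every exponent
  have key : ∀ e : ℝ, 0 ≤ e → e ≤ 1 →
      A ^ (-(2 * d / p)) * S ^ (1 / p - 1 + e) * L ≤ M * n ^ (e - 1) := by
    intro e he0 he1
    have h1 : S ^ (1 / p - 1 + e) ≤ A ^ (d / p) * B ^ (1 / p - 1 + e) := by
      calc S ^ (1 / p - 1 + e) ≤ ((r:ℝ) ^ d * B) ^ (1 / p - 1 + e) :=
            Real.rpow_le_rpow (by linarith) hsz (by linarith)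
        _ = ((r:ℝ) ^ d) ^ (1 / p - 1 + e) * B ^ (1 / p - 1 + e) := Real.mul_rpow (by positivity) hB0.le
        _ ≤ A ^ (d / p) * B ^ (1 / p - 1 + e) := by
            apply mul_le_mul_of_nonneg_right _ (Real.rpow_nonneg hB0.le _)
            calc ((r:ℝ) ^ d) ^ (1 / p - 1 + e) ≤ (A ^ d) ^ (1 / p - 1 + e) := by
                  apply Real.rpow_le_rpow (by positivity) _ (by linarith)
                  apply pow_le_pow_left₀ (by linarith)
                  rw [hA]; linarith
              _ ≤ (A ^ d) ^ (1 / p) := Real.rpow_le_rpow_of_exponent_le (one_le_pow₀ hA1) (by linarith)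
              _ = A ^ (d / p) := by
                  rw [← Real.rpow_natCast, ← Real.rpow_mul hA0.le]; congr 1; ring
    have h2 : (A ^ (d / p))⁻¹ * B ^ (e - 1) ≤ n ^ (e - 1) := by
      have h3 : n ^ (1 - e) ≤ A ^ (d / p) * B ^ (1 - e) := by
        calc n ^ (1 - e) ≤ (A ^ d * B) ^ (1 - e) := Real.rpow_le_rpow (by linarith) hcard (by linarith)
          _ = (A ^ d) ^ (1 - e) * B ^ (1 - e) := Real.mul_rpow (by positivity) hB0.le
          _ ≤ A ^ (d / p) * B ^ (1 - e) := by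
              apply mul_le_mul_of_nonneg_right _ (Real.rpow_nonneg hB0.le _)
              calc (A ^ d) ^ (1 - e) ≤ (A ^ d) ^ (1 / p) :=
                    Real.rpow_le_rpow_of_exponent_le (one_le_pow₀ hA1) (by linarith)
                _ = A ^ (d / p) := by
                  rw [← Real.rpow_natCast, ← Real.rpow_mul hA0.le]; congr 1; ring
      have h4 : n ^ (e - 1) = (n ^ (1 - e))⁻¹ := by
        rw [← Real.rpow_neg (by linarith)]; congr 1; ring
      have h5 : B ^ (e - 1) = (B ^ (1 - e))⁻¹ := by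
        rw [← Real.rpow_neg hB0.le]; congr 1; ring
      rw [h4, h5, ← mul_inv]
      exact inv_anti₀ (Real.rpow_pos_of_pos (by linarith) _) h3
    have h3 : A ^ (-(2 * d / p)) = (A ^ (d / p))⁻¹ * (A ^ (d / p))⁻¹ := by
      rw [← Real.rpow_neg hA0.le, ← Real.rpow_add hA0]; congr 1; ring
    have hAp : 0 < A ^ (d / p) := Real.rpow_pos_of_pos hA0 _
    calc A ^ (-(2 * d / p)) * S ^ (1 / p - 1 + e) * L
        ≤ A ^ (-(2 * d / p)) * (A ^ (d / p) * B ^ (1 / p - 1 + e)) * B ^ (2 * (r:ℝ) - 1 / p) := by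
          apply mul_le_mul _ hc3 _ _
          · exact mul_le_mul_of_nonneg_left h1 (Real.rpow_nonneg hA0.le _)
          · rw [hL]; unfold normLp
            apply Real.rpow_nonneg
            apply mul_nonneg (by have := Real.pi_pos; positivity)
            exact integral_nonneg (fun _ => Real.rpow_nonneg (norm_nonneg _) _)
          · exact mul_nonneg (Real.rpow_nonneg hA0.le _) (mul_nonneg hAp.le (Real.rpow_nonneg hB0.le _))
      _ = B ^ (2 * r) * ((A ^ (d / p))⁻¹ * B ^ (e - 1)) := by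
          have h6 : B ^ (1 / p - 1 + e) * B ^ (2 * (r:ℝ) - 1 / p) = B ^ (2 * r) * B ^ (e - 1) := by
            rw [← Real.rpow_add hB0, ← Real.rpow_natCast B (2 * r), ← Real.rpow_add hB0]
            congr 1; push_cast; ring
          rw [h3]
          calc _ = (A ^ (d / p))⁻¹ * ((A ^ (d / p))⁻¹ * A ^ (d / p)) *
                (B ^ (1 / p - 1 + e) * B ^ (2 * (r:ℝ) - 1 / p)) := by ring
            _ = _ := by rw [inv_mul_cancel₀ hAp.ne', h6]; ring
      _ ≤ M * n ^ (e - 1) := by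
          apply mul_le_mul hc2 h2 _ hM0
          exact mul_nonneg (inv_nonneg.mpr hAp.le) (Real.rpow_nonneg hB0.le _)
  refine ⟨c, hc0, ?_, ?_, ?_⟩
  · intro l hl j
    have h1 := hc1 l hl j
    have h2 : r * ((k j).natAbs / r) ≤ (k j).natAbs := Nat.mul_div_le _ _
    rw [Int.abs_eq_natAbs, Int.abs_eq_natAbs]
    exact_mod_cast h1.trans h2
  · have h1 := key 0 le_rfl zero_le_one
    have h2 : ∃ l ∈ c.support, M * n ^ ((0:ℝ) - 1) ≤ ‖c l‖ := by
      by_contra hcon
      push Not at hcon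
      have h3 : M < ∑ l ∈ c.support, M * n ^ ((0:ℝ) - 1) := by
        rw [hM] at *
        exact Finset.sum_lt_sum_of_nonempty (Finsupp.support_nonempty_iff.mpr hc0) hcon
      rw [Finset.sum_const, nsmul_eq_mul, ← hn] at h3
      have h4 : n * (M * n ^ ((0:ℝ) - 1)) = M := by
        have : n ^ ((0:ℝ) - 1) = n⁻¹ := by
          rw [zero_sub, Real.rpow_neg_one]
        rw [this]; field_simp
      linarith
    obtain ⟨l, _, hl⟩ := h2
    refine ⟨l, le_trans ?_ (h1.trans hl)⟩
    rw [add_zero]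
  · intro q hq
    have hq0 : 0 < q := by linarith
    have h1 := key (1 / q) (by positivity) (by rw [div_le_iff₀ hq0]; linarith)
    refine h1.trans ?_
    have h2 := Real.rpow_sum_le_const_mul_sum_rpow c.support (fun l => ‖c l‖) hq
    simp only [abs_norm] at h2
    unfold coefNorm
    have h3 : M ^ q * n ^ (1 - q) ≤ ∑ l ∈ c.support, ‖c l‖ ^ q := by
      have h4 : n ^ (1 - q) = (n ^ (q - 1))⁻¹ := by
        rw [← Real.rpow_neg (by linarith)]; congr 1; ring
      rw [h4, ← div_eq_mul_inv, div_le_iff₀ (Real.rpow_pos_of_pos (by linarith) _)]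
      rw [mul_comm]
      exact h2
    calc M * n ^ (1 / q - 1) = (M ^ q * n ^ (1 - q)) ^ (1 / q) := by
          rw [Real.mul_rpow (Real.rpow_nonneg hM0 _) (Real.rpow_nonneg (by linarith) _),
            ← Real.rpow_mul hM0, ← Real.rpow_mul (by linarith), mul_one_div_cancel hq0.ne', Real.rpow_one]
          congr 2
          field_simp
      _ ≤ _ := by
          apply Real.rpow_le_rpow _ h3 (by positivity)
          exact mul_nonneg (Real.rpow_nonneg hM0 _) (Real.rpow_nonneg (by linarith) _)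

end Pool.Agent.Y247.HX
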