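import Pool.Agent.Y247.HX.Upper

set_option autoImplicit false
open MeasureTheory

namespace Pool.Agent.Y247.HX

/-- finite exponential sums with frequencies in a box of radii `R` -/
def IsPol {d : ℕ} (R : Fin d → ℕ) (f : (Fin d → ℝ) → ℂ) : Prop :=
  ∃ (ι : Type) (s : Finset ι) (κ : ι → Fin d → ℤ) (a : ι → ℂ),
    (∀ i ∈ s, ∀ j, (κ i j).natAbs ≤ R j) ∧ ∀ x, f x = ∑ i ∈ s, a i * ex (κ i) x

lemma IsPol.mul {d : ℕ} {R R' : Fin d → ℕ} {f g : (Fin d → ℝ) → ℂ} (hf : IsPol R f) (hg : IsPol R' g) :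
    IsPol (R + R') (fun x => f x * g x) := by
  obtain ⟨ι, s, κ, a, h1, h2⟩ := hf
  obtain ⟨ι', s', κ', a', h1', h2'⟩ := hg
  refine ⟨ι × ι', s ×ˢ s', fun i => κ i.1 + κ' i.2, fun i => a i.1 * a' i.2, ?_, ?_⟩
  · intro i hi j
    rw [Finset.mem_product] at hi
    have e1 := h1 i.1 hi.1 j
    have e2 := h1' i.2 hi.2 j
    have e3 := Int.natAbs_add_le (κ i.1 j) (κ' i.2 j)
    simp only [Pi.add_apply]
    omega
  · intro x
    simp only
    rw [h2 x, h2' x, Finset.sum_mul_sum, Finset.sum_product]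
    apply Finset.sum_congr rfl; intro i _
    apply Finset.sum_congr rfl; intro i' _
    rw [ex_add]; ring

lemma IsPol.pow {d : ℕ} {R : Fin d → ℕ} {f : (Fin d → ℝ) → ℂ} (hf : IsPol R f) (r : ℕ) :
    IsPol (r • R) (fun x => f x ^ r) := by
  induction r with
  | zero =>
    refine ⟨Unit, {()}, fun _ => 0, fun _ => 1, ?_, ?_⟩
    · intro i _ j; simp
    · intro x
      simp [ex]
  | succ r ih =>
    have h := ih.mul hf
    rw [succ_nsmul]
    simpa [pow_succ] using h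

/-- conversion to a finitely supported coefficient function -/
lemma IsPol.toFinsupp {d : ℕ} {R : Fin d → ℕ} {f : (Fin d → ℝ) → ℂ} (hf : IsPol R f) :
    ∃ c : (Fin d → ℤ) →₀ ℂ, (∀ k ∈ c.support, ∀ j, (k j).natAbs ≤ R j) ∧ ∀ x, trigPoly c x = f x := by
  classical
  obtain ⟨ι, s, κ, a, h1, h2⟩ := hf
  refine ⟨∑ i ∈ s, Finsupp.single (κ i) (a i), ?_, ?_⟩
  · intro k hk
    have h3 := Finsupp.support_finsetSum hk
    rw [Finset.mem_biUnion] at h3
    obtain ⟨i, hi, h4⟩ := h3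
    have h5 := Finsupp.support_single_subset h4
    rw [Finset.mem_singleton] at h5
    subst h5
    exact h1 i hi
  · intro x
    rw [h2 x]
    unfold trigPoly
    rw [← Finsupp.sum_finsetSum_index (fun _ => by simp) (fun _ _ _ => by ring)]
    apply Finset.sum_congr rfl; intro i _
    rw [Finsupp.sum_single_index (by simp)]; rfl

/-- the box of frequencies `0 ≤ a_j ≤ m_j` -/
def Bx {d : ℕ} (m : Fin d → ℕ) : Finset (Fin d → ℕ) := Fintype.piFinset (fun j => Finset.range (m j + 1))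

/-- frequency of a point of the box -/
def fr {d : ℕ} (a : Fin d → ℕ) : Fin d → ℤ := fun j => (a j : ℤ)

lemma fr_inj {d : ℕ} {a b : Fin d → ℕ} (h : fr a = fr b) : a = b := by
  funext j
  have := congrFun h j
  unfold fr at this
  exact_mod_cast this

lemma Bx_card {d : ℕ} (m : Fin d → ℕ) : (Bx m).card = ∏ j, (m j + 1) := by
  unfold Bx; simp

/-- the Dirichlet kernel of the box -/
noncomputable def DD {d : ℕ} (m : Fin d → ℕ) (x : Fin d → ℝ) : ℂ := ∑ a ∈ Bx m, ex (fr a) x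

lemma DD_cont {d : ℕ} (m : Fin d → ℕ) : Continuous (DD m) := by
  unfold DD
  exact continuous_finsetSum _ (fun k _ => ex_cont _)

lemma DD_norm_le {d : ℕ} (m : Fin d → ℕ) (x : Fin d → ℝ) : ‖DD m x‖ ≤ (Bx m).card := by
  unfold DD
  refine (norm_sum_le _ _).trans ?_
  simp [ex_norm]

lemma DD_zero {d : ℕ} (m : Fin d → ℕ) : DD m 0 = (Bx m).card := by
  unfold DD
  simp [ex_zero]

lemma FF_pol {d : ℕ} (m : Fin d → ℕ) : IsPol m (fun x => DD m x * (starRingEnd ℂ) (DD m x)) := by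
  refine ⟨(Fin d → ℕ) × (Fin d → ℕ), Bx m ×ˢ Bx m, fun i => fr i.1 - fr i.2, fun _ => 1, ?_, ?_⟩
  · intro i hi j
    rw [Finset.mem_product] at hi
    have e1 := Fintype.mem_piFinset.mp hi.1 j
    have e2 := Fintype.mem_piFinset.mp hi.2 j
    rw [Finset.mem_range] at e1 e2
    simp only [Pi.sub_apply, fr]
    omega
  · intro x
    simp only [one_mul]
    unfold DD
    rw [map_sum, Finset.sum_mul_sum, Finset.sum_product]
    apply Finset.sum_congr rfl; intro i _
    apply Finset.sum_congr rfl; intro i' _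
    rw [sub_eq_add_neg, ex_add, ex_conj]

lemma DD_l2 {d : ℕ} (m : Fin d → ℕ) : ∫ x in Q d, ‖DD m x‖ ^ 2 = (2 * Real.pi) ^ d * (Bx m).card := by
  have h1 : ((∫ x in Q d, ‖DD m x‖ ^ 2 : ℝ) : ℂ) = (((2 * Real.pi) ^ d * (Bx m).card : ℝ) : ℂ) := by
    rw [← integral_complex_ofReal]
    have h2 : ∀ x, ((‖DD m x‖ ^ 2 : ℝ) : ℂ) = ∑ i ∈ Bx m, ∑ i' ∈ Bx m, ex (fr i - fr i') x := by
      intro x
      push_cast
      rw [← Complex.mul_conj']
      unfold DD
      rw [map_sum, Finset.sum_mul_sum]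
      apply Finset.sum_congr rfl; intro i _
      apply Finset.sum_congr rfl; intro i' _
      rw [sub_eq_add_neg, ex_add, ex_conj]
    simp_rw [h2]
    rw [integral_finsetSum]
    · have h3 : ∀ i ∈ Bx m, ∫ x in Q d, ∑ i' ∈ Bx m, ex (fr i - fr i') x = (((2 * Real.pi) ^ d : ℝ) : ℂ) := by
        intro i hi
        rw [integral_finsetSum]
        · simp_rw [int_ex, sub_eq_zero]
          rw [Finset.sum_eq_single i]
          · rw [if_pos rfl]
          · intro i' _ h; rw [if_neg]; intro h4; exact h (fr_inj h4).symm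
          · intro h; exact absurd hi h
        · intro i' _; exact Q_int (ex_cont _)
      rw [Finset.sum_congr rfl h3, Finset.sum_const, nsmul_eq_mul]
      push_cast; ring
    · intro i _; exact Q_int (continuous_finsetSum _ (fun _ _ => ex_cont _))
  exact_mod_cast h1

/-- a good polynomial for every box -/
theorem good_pol {d : ℕ} (m : Fin d → ℕ) (r : ℕ) (p : ℝ) (hp0 : 0 < p) (hr : 1 ≤ r * p) :
    ∃ c : (Fin d → ℤ) →₀ ℂ, c ≠ 0 ∧ (∀ k ∈ c.support, ∀ j, (k j).natAbs ≤ r * m j) ∧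
      ((Bx m).card : ℝ) ^ (2 * r) ≤ ∑ k ∈ c.support, ‖c k‖ ∧
      normLp p (trigPoly c) ≤ ((Bx m).card : ℝ) ^ (2 * (r:ℝ) - 1 / p) := by
  have hpi : (0:ℝ) < (2 * Real.pi) ^ d := by have := Real.pi_pos; positivity
  obtain ⟨c, hc1, hc2⟩ := ((FF_pol m).pow r).toFinsupp
  have hB : (1:ℝ) ≤ (Bx m).card := by
    rw [Bx_card]
    exact_mod_cast Nat.one_le_iff_ne_zero.mpr (Finset.prod_ne_zero_iff.mpr (fun j _ => Nat.succ_ne_zero _))
  have hB0 : (0:ℝ) < (Bx m).card := by linarith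
  have hnorm : ∀ x, ‖trigPoly c x‖ = ‖DD m x‖ ^ (2 * r) := by
    intro x
    rw [hc2 x, Complex.mul_conj', norm_pow, norm_pow, Complex.norm_real, norm_norm, ← pow_mul]
  have hsum : ((Bx m).card : ℝ) ^ (2 * r) ≤ ∑ k ∈ c.support, ‖c k‖ := by
    have h1 : ‖trigPoly c 0‖ ≤ ∑ k ∈ c.support, ‖c k‖ := by
      rw [trigPoly_eq]
      refine (norm_sum_le _ _).trans (le_of_eq ?_)
      apply Finset.sum_congr rfl
      intro k _
      rw [norm_mul, ex_norm, mul_one]
    rw [hnorm, DD_zero, Complex.norm_natCast] at h1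
    exact h1
  refine ⟨c, ?_, fun k hk j => by simpa using hc1 k hk j, hsum, ?_⟩
  · intro h
    rw [h] at hsum
    simp only [Finsupp.support_zero, Finset.sum_empty] at hsum
    have : (0:ℝ) < ((Bx m).card : ℝ) ^ (2 * r) := by positivity
    linarith
  · have h1 : ∀ x, ‖trigPoly c x‖ ^ p ≤ ((Bx m).card : ℝ) ^ (2 * r * p - 2) * ‖DD m x‖ ^ 2 := by
      intro x
      rw [hnorm]
      have h2 : (‖DD m x‖ ^ (2 * r)) ^ p = ‖DD m x‖ ^ (2 * r * p - 2) * ‖DD m x‖ ^ 2 := by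
        rw [← Real.rpow_natCast, ← Real.rpow_mul (norm_nonneg _), ← Real.rpow_natCast (‖DD m x‖) 2,
          ← Real.rpow_add_of_nonneg (norm_nonneg _) (by nlinarith) (by norm_num)]
        congr 1; push_cast; ring
      rw [h2]
      apply mul_le_mul_of_nonneg_right _ (by positivity)
      exact Real.rpow_le_rpow (norm_nonneg _) (DD_norm_le m x) (by nlinarith)
    have h3 : ∫ x in Q d, ‖trigPoly c x‖ ^ p ≤
        ∫ x in Q d, ((Bx m).card : ℝ) ^ (2 * r * p - 2) * ‖DD m x‖ ^ 2 := by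
      apply setIntegral_mono
      · exact Q_int ((trigPoly_cont c).norm.rpow_const (fun _ => Or.inr hp0.le))
      · exact Q_int (continuous_const.mul ((DD_cont m).norm.pow 2))
      · exact h1
    rw [integral_const_mul, DD_l2] at h3
    have h4 : ((2 * Real.pi) ^ d)⁻¹ * ∫ x in Q d, ‖trigPoly c x‖ ^ p ≤ ((Bx m).card : ℝ) ^ (2 * r * p - 1) := by
      have h5 : ((Bx m).card : ℝ) ^ (2 * r * p - 1) = ((Bx m).card : ℝ) ^ (2 * r * p - 2) * (Bx m).card := by
        rw [← Real.rpow_add_one hB0.ne']; congr 1; ring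
      rw [h5, inv_mul_le_iff₀ hpi]
      calc _ ≤ _ := h3
        _ = _ := by ring
    unfold normLp
    calc (((2 * Real.pi) ^ d)⁻¹ * ∫ x in Set.Icc (0 : Fin d → ℝ) (fun _ => 2 * Real.pi), ‖trigPoly c x‖ ^ p) ^ (1 / p)
        ≤ (((Bx m).card : ℝ) ^ (2 * r * p - 1)) ^ (1 / p) := by
          apply Real.rpow_le_rpow _ h4 (by positivity)
          apply mul_nonneg (inv_nonneg.mpr hpi.le)
          exact integral_nonneg (fun _ => Real.rpow_nonneg (norm_nonneg _) _)
      _ = _ := by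
          rw [← Real.rpow_mul hB0.le]
          congr 1
          field_simp

end Pool.Agent.Y247.HX
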