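import Pool.Agent.Y247.HX.Basic

set_option autoImplicit false
open MeasureTheory

namespace Pool.Agent.Y247.HX

open Pool.Agent.Results.MP_31cf03_an.OrderOfA (Gamma)

/-- `∏ max(|k_j|, 1)` -/
noncomputable def size {d : ℕ} (k : Fin d → ℤ) : ℝ := ∏ j, max |(k j : ℝ)| 1

lemma size_ge_one {d : ℕ} (k : Fin d → ℤ) : 1 ≤ size k := by
  unfold size
  calc (1:ℝ) = ∏ _j : Fin d, (1:ℝ) := by simp
    _ ≤ _ := Finset.prod_le_prod (fun _ _ => zero_le_one) (fun _ _ => le_max_right _ _)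

/-- all the upper bounds -/
theorem upper_all (d : ℕ) : ∃ C : ℝ, 1 ≤ C ∧ ∀ p : ℝ, 0 < p → p ≤ 1 → ∀ V : ℝ, 1 ≤ V →
    ∀ c : (Fin d → ℤ) →₀ ℂ, c ≠ 0 → (∀ k ∈ c.support, size k ≤ V) →
      0 < normLp p (trigPoly c) ∧
      (∀ k, ‖c k‖ ≤ (C * V) ^ (1 / p - 1) * normLp p (trigPoly c)) ∧
      ∀ q : ℝ, 1 ≤ q → coefNorm q c ≤ (C * V) ^ (1 / p - 1 + 1 / q) * normLp p (trigPoly c) := by
  obtain ⟨C0, hC0, h0⟩ := Pool.Agent.Results.MP_31cf03_an.OrderOfA.upper d
  refine ⟨max C0 1, le_max_right _ _, fun p hp0 hp1 V hV c hc hS => ?_⟩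
  set C := max C0 1 with hC
  have hC1 : 1 ≤ C := le_max_right _ _
  have hCV : 1 ≤ C * V := by nlinarith
  have hpi : (0:ℝ) < (2 * Real.pi) ^ d := by have := Real.pi_pos; positivity
  set M := ∑ k ∈ c.support, ‖c k‖ with hM
  set n1 := ((2 * Real.pi) ^ d)⁻¹ * ∫ x in Q d, ‖trigPoly c x‖ with hn1
  set P := ((2 * Real.pi) ^ d)⁻¹ * ∫ x in Q d, ‖trigPoly c x‖ ^ p with hP
  have hMpos : 0 < M := by
    obtain ⟨k, hk⟩ := Finsupp.support_nonempty_iff.mpr hc
    exact Finset.sum_pos (fun k hk => norm_pos_iff.mpr (Finsupp.mem_support_iff.mp hk)) ⟨k, hk⟩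
  have hn0 : 0 ≤ n1 := by
    apply mul_nonneg (inv_nonneg.mpr hpi.le)
    exact integral_nonneg (fun _ => norm_nonneg _)
  have h1 : M ≤ C * V * n1 := by
    have h2 : M ≤ C0 * V * n1 := h0 V hV c hS
    refine h2.trans ?_
    have : C0 ≤ C := le_max_left _ _
    gcongr
  have h2 : n1 ≤ M ^ (1 - p) * P := avg1_le hp0 hp1 c
  have hP0 : 0 ≤ P := by
    apply mul_nonneg (inv_nonneg.mpr hpi.le)
    exact integral_nonneg (fun _ => Real.rpow_nonneg (norm_nonneg _) _)
  have h3 : M ^ p ≤ C * V * P := by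
    have h4 : M ≤ C * V * (M ^ (1 - p) * P) := h1.trans (by gcongr)
    have h5 : M = M ^ (1 - p) * M ^ p := by
      rw [← Real.rpow_add hMpos]; simp
    have h6 : 0 < M ^ (1 - p) := Real.rpow_pos_of_pos hMpos _
    have h7 : M ^ (1 - p) * M ^ p ≤ M ^ (1 - p) * (C * V * P) := by
      rw [← h5]; linarith
    exact le_of_mul_le_mul_left h7 h6
  have hPpos : 0 < P := by
    have h4 : 0 < M ^ p := Real.rpow_pos_of_pos hMpos _
    have h5 : 0 < C * V * P := h4.trans_le h3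
    exact (pos_iff_pos_of_mul_pos h5).mp (by linarith)
  have hL : normLp p (trigPoly c) = P ^ (1 / p) := rfl
  set L := normLp p (trigPoly c) with hLdef
  have hLpos : 0 < L := by rw [hL]; exact Real.rpow_pos_of_pos hPpos _
  have hLp : L ^ p = P := by
    rw [hL, ← Real.rpow_mul hP0, one_div, inv_mul_cancel₀ hp0.ne', Real.rpow_one]
  -- the sum
  have hMle : M ≤ (C * V) ^ (1 / p) * L := by
    have h4 : M = (M ^ p) ^ (1 / p) := by
      rw [← Real.rpow_mul hMpos.le, mul_one_div_cancel hp0.ne', Real.rpow_one]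
    rw [h4, hL, ← Real.mul_rpow (by linarith) hP0]
    exact Real.rpow_le_rpow (Real.rpow_nonneg hMpos.le _) h3 (by positivity)
  -- the sup
  have hnle : n1 ≤ (C * V) ^ (1 / p - 1) * L := by
    calc n1 ≤ M ^ (1 - p) * P := h2
      _ ≤ ((C * V) ^ (1 / p) * L) ^ (1 - p) * L ^ p := by
          rw [hLp]
          exact mul_le_mul_of_nonneg_right (Real.rpow_le_rpow hMpos.le hMle (by linarith)) hP0
      _ = (C * V) ^ (1 / p - 1) * L := by
          rw [Real.mul_rpow (Real.rpow_nonneg (by linarith) _) hLpos.le, ← Real.rpow_mul (by linarith), mul_assoc,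
            ← Real.rpow_add hLpos]
          congr 1
          · congr 1; field_simp
          · have : 1 - p + p = 1 := by ring
            rw [this, Real.rpow_one]
  have hcoef : ∀ k, ‖c k‖ ≤ n1 := fun k => coef_le c k
  refine ⟨hLpos, fun k => (hcoef k).trans hnle, fun q hq => ?_⟩
  have hq0 : 0 < q := by linarith
  have hsum : ∑ k ∈ c.support, ‖c k‖ ^ q ≤ n1 ^ (q - 1) * M := by
    rw [hM, Finset.mul_sum]
    apply Finset.sum_le_sum
    intro k hk
    have hk0 : 0 < ‖c k‖ := norm_pos_iff.mpr (Finsupp.mem_support_iff.mp hk)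
    calc ‖c k‖ ^ q = ‖c k‖ ^ (q - 1) * ‖c k‖ := by
          rw [← Real.rpow_add_one hk0.ne']; congr 1; ring
      _ ≤ _ := mul_le_mul_of_nonneg_right (Real.rpow_le_rpow hk0.le (hcoef k) (by linarith)) hk0.le
  unfold coefNorm
  set B := C * V with hB
  have hB0 : 0 < B := by linarith
  calc (∑ k ∈ c.support, ‖c k‖ ^ q) ^ (1 / q) ≤ (n1 ^ (q - 1) * M) ^ (1 / q) :=
        Real.rpow_le_rpow (Finset.sum_nonneg (fun _ _ => Real.rpow_nonneg (norm_nonneg _) _)) hsum (by positivity)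
    _ ≤ ((B ^ (1 / p - 1) * L) ^ (q - 1) * (B ^ (1 / p) * L)) ^ (1 / q) := by
        apply Real.rpow_le_rpow (mul_nonneg (Real.rpow_nonneg hn0 _) hMpos.le) _ (by positivity)
        exact mul_le_mul (Real.rpow_le_rpow hn0 hnle (by linarith)) hMle hMpos.le
          (Real.rpow_nonneg (mul_nonneg (Real.rpow_nonneg hB0.le _) hLpos.le) _)
    _ = B ^ (1 / p - 1 + 1 / q) * L := by
        have e1 : (B ^ (1 / p - 1) * L) ^ (q - 1) * (B ^ (1 / p) * L)
            = B ^ ((1 / p - 1) * (q - 1) + 1 / p) * L ^ q := by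
          rw [Real.mul_rpow (Real.rpow_nonneg hB0.le _) hLpos.le, ← Real.rpow_mul hB0.le,
            Real.rpow_add hB0]
          have : L ^ q = L ^ (q - 1) * L := by
            rw [← Real.rpow_add_one hLpos.ne']; congr 1; ring
          rw [this]; ring
        rw [e1, Real.mul_rpow (Real.rpow_nonneg hB0.le _) (Real.rpow_nonneg hLpos.le _),
          ← Real.rpow_mul hB0.le, ← Real.rpow_mul hLpos.le, mul_one_div_cancel hq0.ne', Real.rpow_one]
        congr 2
        field_simp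
        ring

end Pool.Agent.Y247.HX
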